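import Pool.Agent.Q164.UT.Count

/-!
# MP_f40460_co: a sequence of trees that is `k`-universal for every `k`

We answer Q1 affirmatively: there is a single sequence of trees that is `k`-universal for every
`k ≥ 1` simultaneously.

Proof idea: hang copies of all trees along a path, each tree `S` on `N + 1` vertices with a density
that decays fast with `N`. Then all power sums of the degrees, per vertex of the path, stay bounded,
and the number of `k`-subtrees of a tree is at most `(k-1)! ∑ deg^(k-1)`.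
-/

open SimpleGraph Filter Pool.Agent.Q164.UT

noncomputable section

namespace Pool.Agent.Results.MP_f40460_co.UniversalTrees

/-- `Z_k(T)`: the number of `k`-subtrees of `T`, that is, of sets `U` of `k` vertices whose induced
subgraph is connected. -/
def Z {V : Type} (T : SimpleGraph V) (k : ℕ) : ℕ :=
  {U : Finset V | U.card = k ∧ (T.induce (U : Set V)).Connected}.ncard

/-- `c(S, T)`: the number of `k`-subtrees `U` of `T` with `T[U]` isomorphic to `S`. -/
def c {V : Type} {k : ℕ} (S : SimpleGraph (Fin k)) (T : SimpleGraph V) : ℕ :=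
  {U : Finset V | U.card = k ∧ (T.induce (U : Set V)).Connected ∧
    Nonempty (T.induce (U : Set V) ≃g S)}.ncard

/-- The sequence of graphs `T n` on the finite vertex sets `V n` is `k`-universal: `T n` has at
least `k` vertices for all large `n`, and for every tree `S` on `k` vertices the lower limit of the
entry `c(S, T n) / Z_k(T n)` of the `k`-profile is positive. -/
def IsUniversal (k : ℕ) (V : ℕ → Type) [∀ n, Fintype (V n)] (T : ∀ n, SimpleGraph (V n)) : Prop :=
  (∀ᶠ n in atTop, k ≤ Fintype.card (V n)) ∧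
    ∀ S : SimpleGraph (Fin k), S.IsTree →
      0 < liminf (fun n => (c S (T n) : ℝ) / (Z (T n) k : ℝ)) atTop

open Classical

/-- trees on `N + 1` vertices -/
abbrev Tr (N : ℕ) := {S : SimpleGraph (Fin (N + 1)) // S.IsTree}

instance (N : ℕ) : Fintype (Tr N) := Fintype.ofFinite _

/-- number of labelled trees -/
def a (N : ℕ) : ℕ := Fintype.card (Tr N)

/-- exponents -/
def h (N : ℕ) : ℕ := a N + N

/-- partial sums -/
def HH (n : ℕ) : ℕ := ∑ M ∈ Finset.range (n + 1), h M

theorem h_le {n N : ℕ} (hN : N ≤ n) : h N ≤ HH n :=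
  Finset.single_le_sum (f := h) (fun _ _ => Nat.zero_le _) (Finset.mem_range.2 (by omega))

/-- multiplicities -/
def w (n N : ℕ) : ℕ := 2 ^ (HH n - h N)

/-- the multiset of trees that are hung on the path -/
def MM (n : ℕ) : Multiset P :=
  ∑ N ∈ Finset.range (n + 1), ∑ S : Tr N, w n N • {(⟨N, S⟩ : P)}

theorem MM_count {n N : ℕ} (hN : N ≤ n) (S : Tr N) : w n N ≤ (MM n).count ⟨N, S⟩ := by
  have h1 : w n N • {(⟨N, S⟩ : P)} ≤ ∑ S : Tr N, w n N • {(⟨N, S⟩ : P)} :=
    Finset.single_le_sum (f := fun S : Tr N => w n N • {(⟨N, S⟩ : P)})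
      (fun _ _ => Multiset.zero_le _) (Finset.mem_univ S)
  have h2 : ∑ S : Tr N, w n N • {(⟨N, S⟩ : P)} ≤ MM n :=
    Finset.single_le_sum (f := fun N => ∑ S : Tr N, w n N • {(⟨N, S⟩ : P)})
      (fun _ _ => Multiset.zero_le _) (Finset.mem_range.2 (by omega))
  have h3 := Multiset.count_le_of_le (⟨N, S⟩ : P) (h1.trans h2)
  refine le_trans ?_ h3
  rw [Multiset.count_nsmul, Multiset.count_singleton_self, mul_one]

theorem MM_cost (n k : ℕ) : ((MM n).map (cost k)).sum =
    ∑ N ∈ Finset.range (n + 1), a N * w n N * (3 ^ k + 2 ^ k + (N + 2) ^ (k + 1)) := by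
  rw [MM]
  have hm : ∀ s : Multiset P, (s.map (cost k)).sum =
      (Multiset.sumAddMonoidHom.comp (Multiset.mapAddMonoidHom (cost k))) s := fun s => rfl
  rw [hm, map_sum]
  refine Finset.sum_congr rfl fun N _ => ?_
  rw [map_sum]
  have : ∀ S : Tr N, (Multiset.sumAddMonoidHom.comp (Multiset.mapAddMonoidHom (cost k)))
      (w n N • {(⟨N, S⟩ : P)}) = w n N * (3 ^ k + 2 ^ k + (N + 2) ^ (k + 1)) := by
    intro S
    rw [map_nsmul, ← hm, Multiset.map_singleton, Multiset.sum_singleton, smul_eq_mul]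
    rfl
  rw [Finset.sum_congr rfl fun S _ => this S, Finset.sum_const, Finset.card_univ, smul_eq_mul]
  show a N * _ = _
  ring

theorem aw_le {n N : ℕ} (hN : N ≤ n) : (a N * w n N : ℝ) ≤ 2 ^ HH n * (1 / 2) ^ N := by
  have h1 : (a N : ℝ) ≤ 2 ^ (a N) := by
    exact_mod_cast (Nat.lt_two_pow_self).le
  have h2 := h_le hN
  have h3 : HH n = (HH n - h N) + a N + N := by
    have : h N = a N + N := rfl
    omega
  calc (a N * w n N : ℝ) ≤ 2 ^ (a N) * 2 ^ (HH n - h N) := by
        have : (w n N : ℝ) = 2 ^ (HH n - h N) := by simp [w]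
        rw [this]
        gcongr
    _ = 2 ^ HH n * (1 / 2) ^ N := by
        conv_rhs => rw [h3]
        rw [pow_add, pow_add, one_div, inv_pow]
        field_simp

/-- summands of the total cost -/
def g (k N : ℕ) : ℝ := (1 / 2) ^ N * (3 ^ k + 2 ^ k + ((N : ℝ) + 2) ^ (k + 1))

theorem g_nonneg (k N : ℕ) : 0 ≤ g k N := by unfold g; positivity

theorem g_summable (k : ℕ) : Summable (g k) := by
  have h1 : Summable fun N : ℕ => ((1 : ℝ) / 2) ^ N * (3 ^ k + 2 ^ k) :=
    (summable_geometric_of_lt_one (by norm_num) (by norm_num)).mul_right _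
  have h2 : Summable fun N : ℕ => ((N : ℝ)) ^ (k + 1) * (1 / 2 : ℝ) ^ N :=
    summable_pow_mul_geometric_of_norm_lt_one (k + 1) (by norm_num)
  have h3 : Summable fun N : ℕ => (((N + 2 : ℕ) : ℝ)) ^ (k + 1) * (1 / 2 : ℝ) ^ (N + 2) :=
    (summable_nat_add_iff 2).2 h2
  have h4 := h3.mul_left (4 : ℝ)
  refine (h1.add h4).congr fun N => ?_
  unfold g
  push_cast
  ring

theorem cost_le (n k : ℕ) : (((MM n).map (cost k)).sum : ℝ) ≤ 2 ^ HH n * ∑' N, g k N := by
  rw [MM_cost]
  push_cast
  have h1 : ∑ N ∈ Finset.range (n + 1), g k N ≤ ∑' N, g k N :=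
    (g_summable k).sum_le_tsum _ fun N _ => g_nonneg k N
  refine le_trans ?_ (mul_le_mul_of_nonneg_left h1 (by positivity))
  rw [Finset.mul_sum]
  refine Finset.sum_le_sum fun N hN => ?_
  have h2 := aw_le (n := n) (N := N) (by
    have := Finset.mem_range.1 hN
    omega)
  unfold g
  calc (a N : ℝ) * w n N * (3 ^ k + 2 ^ k + ((N : ℝ) + 2) ^ (k + 1))
      ≤ (2 ^ HH n * (1 / 2) ^ N) * (3 ^ k + 2 ^ k + ((N : ℝ) + 2) ^ (k + 1)) := by gcongr
    _ = _ := by ring

/-- the tree with one vertex -/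
def oneTree : Tr 0 := ⟨(⊥ : SimpleGraph (Fin 1)), by
  have : Subsingleton (Fin 1) := inferInstance
  exact IsTree.of_subsingleton⟩

/-- **Affirmative answer to Q1.** There is a single sequence of trees that is `k`-universal for
every `k ≥ 1` simultaneously. -/
theorem result :
    ∃ (V : ℕ → Type) (_ : ∀ n, Fintype (V n)) (T : ∀ n, SimpleGraph (V n)),
      (∀ n, (T n).IsTree) ∧ ∀ k : ℕ, 1 ≤ k → IsUniversal k V T := by
  choose V iV T e hT he hcost hcount hcard using fun n => build (MM n)
  refine ⟨V, iV, T, hT, fun k hk => ?_⟩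
  obtain ⟨N, rfl⟩ : ∃ N, k = N + 1 := ⟨k - 1, by omega⟩
  refine ⟨?_, ?_⟩
  · -- sizes
    have hsz : ∀ n, 1 ≤ n → n ≤ Fintype.card (V n) := by
      intro n hn
      have h1 := MM_count (Nat.zero_le n) oneTree
      have h2 := Multiset.count_le_card (⟨0, oneTree⟩ : P) (MM n)
      have h3 : HH n - h 0 < w n 0 := Nat.lt_two_pow_self
      have h4 : h 0 + h n ≤ HH n := by
        have : ∑ M ∈ ({0, n} : Finset ℕ), h M ≤ HH n := by
          refine Finset.sum_le_sum_of_subset ?_
          intro x hx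
          rw [Finset.mem_insert, Finset.mem_singleton] at hx
          rw [Finset.mem_range]
          omega
        rwa [Finset.sum_pair (by omega)] at this
      have h5 : n ≤ h n := Nat.le_add_left _ _
      have h6 := hcard n
      omega
    filter_upwards [eventually_ge_atTop (N + 1)] with n hn
    exact hn.trans (hsz n (by omega))
  · intro S hS
    set ε : ℝ := 1 / (2 ^ h N * (N.factorial * (1 + ∑' M, g N M))) with hε
    have hK : 0 ≤ ∑' M, g N M := tsum_nonneg fun M => g_nonneg N M
    have hε0 : 0 < ε := by positivity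
    have hcZ : ∀ n, c S (T n) ≤ Z (T n) (N + 1) := by
      intro n
      refine Set.ncard_le_ncard ?_ (Set.toFinite _)
      rintro U ⟨h1, h2, _⟩
      exact ⟨h1, h2⟩
    have hev : ∀ᶠ n in atTop, ε ≤ (c S (T n) : ℝ) / (Z (T n) (N + 1) : ℝ) := by
      filter_upwards [eventually_ge_atTop N] with n hn
      have h1 : w n N ≤ c S (T n) := (MM_count hn ⟨S, hS⟩).trans (hcount n ⟨N, ⟨S, hS⟩⟩)
      have h2 : Z (T n) (N + 1) ≤ N.factorial * ∑ v, dg (T n) v ^ N := KS_le (T n) N
      have h3 : ((∑ v, dg (T n) v ^ N : ℕ) : ℝ) ≤ 2 ^ HH n * (1 + ∑' M, g N M) := by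
        have h4 : ((∑ v, dg (T n) v ^ N : ℕ) : ℝ) ≤ 1 + (((MM n).map (cost N)).sum : ℝ) := by
          exact_mod_cast hcost n N
        have h5 := cost_le n N
        have h6 : (1 : ℝ) ≤ 2 ^ HH n := one_le_pow₀ (by norm_num)
        nlinarith
      have h4 : (Z (T n) (N + 1) : ℝ) ≤ N.factorial * (2 ^ HH n * (1 + ∑' M, g N M)) := by
        have : (Z (T n) (N + 1) : ℝ) ≤ N.factorial * ((∑ v, dg (T n) v ^ N : ℕ) : ℝ) := by
          exact_mod_cast h2
        exact this.trans (by gcongr)
      have h5 : (w n N : ℝ) * 2 ^ h N = 2 ^ HH n := by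
        have : (w n N : ℝ) = 2 ^ (HH n - h N) := by simp [w]
        rw [this, ← pow_add, Nat.sub_add_cancel (h_le hn)]
      have hw0 : 0 < w n N := by unfold w; positivity
      have hZ0 : (0 : ℝ) < Z (T n) (N + 1) := by
        have := hcZ n
        exact_mod_cast (lt_of_lt_of_le hw0 (h1.trans this))
      rw [le_div_iff₀ hZ0]
      calc ε * Z (T n) (N + 1) ≤ ε * (N.factorial * (2 ^ HH n * (1 + ∑' M, g N M))) := by gcongr
        _ = w n N := by
          rw [hε, ← h5]
          have : (0 : ℝ) < 1 + ∑' M, g N M := by linarith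
          have h7 : (0 : ℝ) < N.factorial := by exact_mod_cast Nat.factorial_pos N
          field_simp
        _ ≤ c S (T n) := by exact_mod_cast h1
    have hb : IsBoundedUnder (· ≤ ·) atTop
        (fun n => (c S (T n) : ℝ) / (Z (T n) (N + 1) : ℝ)) := by
      refine isBoundedUnder_of ⟨1, fun n => ?_⟩
      refine div_le_one_of_le₀ ?_ (Nat.cast_nonneg _)
      exact_mod_cast hcZ n
    exact lt_of_lt_of_le hε0 (le_liminf_of_le hb.isCoboundedUnder_ge hev)

end Pool.Agent.Results.MP_f40460_co.UniversalTrees
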